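import Pool.Agent.H24.S36.Tr

set_option autoImplicit false

namespace Pool.Agent.H32.S36

theorem NU1_pent_ne {n : ℕ} (hn : n = 3 ∨ n = 4 ∨ n = 6) : n ∉ Set.range pentagonal := by
  rintro ⟨k, hk⟩
  have h := two_mul_natCast_pentagonal k
  rw [hk] at h
  have h1 : k ≤ 2 := by
    by_contra hc
    have h3 : 3 ≤ k := by omega
    nlinarith [show (n : ℤ) ≤ 6 by omega]
  have h2 : -2 ≤ k := by
    by_contra hc
    have h3 : k ≤ -3 := by omega
    nlinarith [show (n : ℤ) ≤ 6 by omega]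
  interval_cases k <;> omega

theorem NU1_E (n : ℕ) (hn : n < 8) :
    (PowerSeries.pentagonalSeries ℤ).coeff n = ([1, -1, -1, 0, 0, 1, 0, 1] : List ℤ).getD n 0 := by
  have e0 : pentagonal 0 = 0 := by decide
  have e1 : pentagonal 1 = 1 := by decide
  have e2 : pentagonal (-1) = 2 := by decide
  have e5 : pentagonal 2 = 5 := by decide
  have e7 : pentagonal (-2) = 7 := by decide
  have z : ∀ n : ℕ, (n = 3 ∨ n = 4 ∨ n = 6) → (PowerSeries.pentagonalSeries ℤ).coeff n = 0 :=
    fun n hn => PowerSeries.coeff_pentagonalSeries_eq_zero ℤ (NU1_pent_ne hn)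
  have p : ∀ k : ℤ, (PowerSeries.pentagonalSeries ℤ).coeff (pentagonal k) = Int.negOnePow k :=
    fun k => PowerSeries.coeff_pentagonalSeries_pentagonal ℤ k
  interval_cases n
  · have := p 0
    rw [e0] at this
    rw [this]; decide
  · have := p 1
    rw [e1] at this
    rw [this]; decide
  · have := p (-1)
    rw [e2] at this
    rw [this]; decide
  · rw [z 3 (by omega)]; rfl
  · rw [z 4 (by omega)]; rfl
  · have := p 2
    rw [e5] at this
    rw [this]; decide
  · rw [z 6 (by omega)]; rfl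
  · have := p (-2)
    rw [e7] at this
    rw [this]; decide

theorem NU1_ps (F : PowerSeries ℤ) (n : ℤ) : (HahnSeries.ofPowerSeries ℤ ℤ F).coeff n =
    if 0 ≤ n then F.coeff n.toNat else 0 := by
  split_ifs with h
  · obtain ⟨k, rfl⟩ := Int.eq_ofNat_of_zero_le h
    rw [HahnSeries.ofPowerSeries_apply_coeff]
    simp
  · rw [HahnSeries.ofPowerSeries_apply]
    refine HahnSeries.embDomain_of_notMem_range ?_
    rintro ⟨k, hk⟩
    simp at hk
    omega

theorem NU1_Ez (d : ℕ) (hd : 0 < d) (r : List ℤ)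
    (hr : ∀ n, n < 8 → (if n % d = 0 then ([1, -1, -1, 0, 0, 1, 0, 1] : List ℤ).getD (n / d) 0
      else 0) = r.getD n 0) : Tr 0 8 r (Ez d hd) := by
  refine ⟨fun n hn => ?_, fun n hn => ?_⟩
  · unfold Ez
    rw [VV_coeff]
    split_ifs with h
    · rw [NU1_ps, if_neg]
      intro h1
      have := Int.mul_ediv_cancel' h
      have hd' : (0 : ℤ) < d := by exact_mod_cast hd
      nlinarith
    · rfl
  · rw [← hr n hn, zero_add]
    unfold Ez
    rw [VV_coeff]
    by_cases h : n % d = 0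
    · rw [if_pos h, if_pos (by exact_mod_cast Nat.dvd_of_mod_eq_zero h), NU1_ps,
        if_pos (by positivity)]
      have e : ((n : ℤ) / (d : ℤ)).toNat = n / d := by
        rw [← Int.natCast_div]; exact Int.toNat_natCast _
      rw [e]
      exact NU1_E _ (lt_of_le_of_lt (Nat.div_le_self n d) hn)
    · rw [if_neg h, if_neg]
      intro h1
      exact h (Nat.mod_eq_zero_of_dvd (by exact_mod_cast h1))

theorem m_NU1 : T_NU1 := by
  intro vz vi dz hv he hd
  have E1 := NU1_Ez 1 (by norm_num) [1, -1, -1, 0, 0, 1, 0, 1] (by decide)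
  have E2 := NU1_Ez 2 (by norm_num) [1, 0, -1, 0, -1, 0, 0, 0] (by decide)
  have E5 := NU1_Ez 5 (by norm_num) [1, 0, 0, 0, 0, -1, 0, 0] (by decide)
  have E10 := NU1_Ez 10 (by norm_num) [1, 0, 0, 0, 0, 0, 0, 0] (by decide)
  have a12 := Tr.mul (r := [1, -1, -2, 1, 0, 2, 1, 0]) E1 E2 (by decide)
  have a510 := Tr.mul (r := [1, 0, 0, 0, 0, -1, 0, 0]) E5 E10 (by decide)
  have hU := Tr.mul (r := [1, -2, -3, 6, 2, 0, -1, -10]) a12 a12 (by decide)
  have hW := Tr.mul (r := [1, 0, 0, 0, 0, -2, 0, 0]) a510 a510 (by decide)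
  rw [← pow_two] at hU hW
  have hV : Tr (-1) 8 [1, -2, -3, 6, 2, 2, -5, -16] vz := by
    refine Tr.div (b := 0) he hW rfl (by norm_num) ((hU.shift (-1)).cast (by norm_num)) (by decide)
  have h1 : Tr (1 + -1) 8 [1, 0, 0, 0, 0, 0, 0, 0] (1 : LaurentSeries ℤ) := by
    have := Tr.const (N := 8) 1 (r := [1, 0, 0, 0, 0, 0, 0, 0]) (by decide)
    exact ((this.congr (by simp)).cast (by norm_num))
  have hVi : Tr 1 8 [1, 2, 7, 14, 35, 64, 136, 238] vi :=
    Tr.div (b := -1) (by rw [mul_comm]; exact hv) hV rfl (by norm_num) h1 (by decide)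
  have p1 := Tr.mul (r := [1, -1, -2, 1, 0, 1, 2, 2]) (Tr.mul (r := [1, -1, -2, 1, 0, 1, 2, 2])
    a12 E5 (by decide)) E10 (by decide)
  have p2 := Tr.mul (r := [1, -2, -3, 6, 2, -2, 3, -4]) p1 p1 (by decide)
  have p4 := Tr.mul (r := [1, -4, -2, 24, -11, -48, 38, 16]) p2 p2 (by decide)
  have hD : Tr 3 8 [1, -4, -2, 24, -11, -48, 38, 16] dz := by
    have := (p4.shift 3).cast (c := 3) (by norm_num)
    refine this.congr ?_
    rw [hd]; ring
  refine ⟨⟨hV.low, ?_, ?_, ?_, ?_, ?_, ?_, ?_, ?_⟩, ⟨hVi.low, ?_, ?_, ?_, ?_, ?_, ?_, ?_, ?_⟩,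
    ⟨hD.low, ?_, ?_, ?_, ?_⟩⟩
  · exact hV.get (-1) 0 (by norm_num) (by norm_num)
  · exact hV.get 0 1 (by norm_num) (by norm_num)
  · exact hV.get 1 2 (by norm_num) (by norm_num)
  · exact hV.get 2 3 (by norm_num) (by norm_num)
  · exact hV.get 3 4 (by norm_num) (by norm_num)
  · exact hV.get 4 5 (by norm_num) (by norm_num)
  · exact hV.get 5 6 (by norm_num) (by norm_num)
  · exact hV.get 6 7 (by norm_num) (by norm_num)
  · exact hVi.get 1 0 (by norm_num) (by norm_num)
  · exact hVi.get 2 1 (by norm_num) (by norm_num)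
  · exact hVi.get 3 2 (by norm_num) (by norm_num)
  · exact hVi.get 4 3 (by norm_num) (by norm_num)
  · exact hVi.get 5 4 (by norm_num) (by norm_num)
  · exact hVi.get 6 5 (by norm_num) (by norm_num)
  · exact hVi.get 7 6 (by norm_num) (by norm_num)
  · exact hVi.get 8 7 (by norm_num) (by norm_num)
  · exact hD.get 3 0 (by norm_num) (by norm_num)
  · exact hD.get 4 1 (by norm_num) (by norm_num)
  · exact hD.get 5 2 (by norm_num) (by norm_num)
  · exact hD.get 6 3 (by norm_num) (by norm_num)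

end Pool.Agent.H32.S36
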