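import Pool.Agent.H24.S36.Tr

set_option autoImplicit false

namespace Pool.Agent.H32.S36

theorem P3C_of (a : ℤ) (N : ℕ) (l : List ℤ) (f : LaurentSeries ℤ)
    (h1 : ∀ n : ℤ, n < a → f.coeff n = 0) (h2 : ∀ n < N, f.coeff (a + n) = l.getD n 0) :
    Tr a N l f := ⟨h1, h2⟩

theorem P3C_re {a b : ℤ} {N M : ℕ} {l r : List ℤ} {f g : LaurentSeries ℤ} (h : Tr a N l f)
    (ha : a = b) (hM : M ≤ N) (hr : ∀ n, n < M → l.getD n 0 = r.getD n 0) (e : f = g) :
    Tr b M r g := by
  subst ha e
  exact ⟨h.low, fun n hn => by rw [h.cf n (by omega), hr n hn]⟩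

theorem m_P3C : T_P3C := by
  intro xz hz dz xl xm1 x0 x1 x2 hl hm1 h0 h1 h2 h3 h4 h5 h6 dl d3 d4 d5 d6
  have hx : Tr (-1) 4 [1, 4, 22, 56] xz := by
    refine ⟨xl, fun n hn => ?_⟩
    interval_cases n
    · exact xm1
    · exact x0
    · exact x1
    · exact x2
  have hh : Tr (-1) 8 [1, 2, 8, 12, 31, 52, 108, 176] hz := by
    refine ⟨hl, fun n hn => ?_⟩
    interval_cases n
    · exact hm1
    · exact h0
    · exact h1
    · exact h2
    · exact h3
    · exact h4
    · exact h5
    · exact h6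
  have hd : Tr 3 4 [1, -4, -2, 24] dz := by
    refine ⟨dl, fun n hn => ?_⟩
    interval_cases n
    · exact d3
    · exact d4
    · exact d5
    · exact d6
  have s0 : Tr 0 3 [2, 31, 176] (sec3 0 hz) := by
    refine ⟨fun n hn => hl _ (by omega), fun n hn => ?_⟩
    interval_cases n
    · exact h0
    · exact h3
    · exact h6
  have s1 : Tr 0 2 [8, 52] (sec3 1 hz) := by
    refine ⟨fun n hn => hl _ (by omega), fun n hn => ?_⟩
    interval_cases n
    · exact h1
    · exact h4
  have s2 : Tr (-1) 3 [1, 12, 108] (sec3 2 hz) := by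
    refine ⟨fun n hn => hl _ (by omega), fun n hn => ?_⟩
    interval_cases n
    · exact hm1
    · exact h2
    · exact h5
  have hv : Tr (-3) 4 [1, 0, 0, 2] (VV 3 (by norm_num) hz) := by
    refine ⟨fun n hn => ?_, fun n hn => ?_⟩
    · rw [VV_coeff]
      split_ifs
      · exact hl _ (by omega)
      · rfl
    · rw [VV_coeff]
      interval_cases n
      · simpa using hm1
      · rw [if_neg (by norm_num)]; rfl
      · rw [if_neg (by norm_num)]; rfl
      · simpa using h0
  -- `3 hz`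
  have h3z : Tr (-1) 4 [3, 6, 24, 36] (3 * hz) :=
    (Tr.smul 3 (hh.mono (M := 4) (by norm_num)) (by decide)).congr (by push_cast; rfl)
  have h3z' : Tr (-3) 4 [0, 0, 3, 6] (3 * hz) :=
    P3C_re (h3z.down 2) (by norm_num) (by norm_num) (by decide) rfl
  have hA : Tr (-3) 4 [-1, 0, 3, 4] (3 * hz - VV 3 (by norm_num) hz) :=
    Tr.sub h3z' hv (by decide)
  have s0' : Tr (-1) 4 [0, 2, 31, 176] (sec3 0 hz) :=
    P3C_re (s0.down 1) (by norm_num) (by norm_num) (by decide) rfl
  have s09 : Tr (-1) 4 [0, 18, 279, 1584] (9 * sec3 0 hz) :=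
    (Tr.smul 9 s0' (by decide)).congr (by push_cast; rfl)
  have al : Tr (-1) 4 [3, -12, -255, -1548] (3 * hz - 9 * sec3 0 hz) := Tr.sub h3z s09 (by decide)
  have al2 := Tr.mul (r := [9, -72, -1386, -3168]) al al (by decide)
  have al3 := Tr.mul (r := [27, -324, -5589, 11556]) al2 al (by decide)
  have al3' : Tr (-3) 4 [27, -324, -5589, 11556] ((3 * hz - 9 * sec3 0 hz) ^ 3) :=
    (al3.cast (by norm_num)).congr (by ring)
  -- `q s1^3`
  have s1' : ∀ n : ℤ, n < 1 → (HahnSeries.single 1 1 * sec3 1 hz ^ 3 : LaurentSeries ℤ).coeff n = 0 := by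
    have t := Tr.mul (r := [512, 9984]) (Tr.mul (r := [64, 832]) s1 s1 (by decide)) s1 (by decide)
    have t' := ((t.shift 1).cast (c := 1) (by norm_num)).congr
      (g := HahnSeries.single 1 1 * sec3 1 hz ^ 3) (by ring)
    exact t'.low
  have t1 : Tr (-3) 4 [0, 0, 0, 0] (HahnSeries.single 1 1 * sec3 1 hz ^ 3) := by
    refine ⟨fun n hn => s1' n (by omega), fun n hn => ?_⟩
    rw [s1' _ (by omega)]
    interval_cases n <;> rfl
  have t2 : Tr (-3) 4 [0, 0, 1, 36] (HahnSeries.single 2 1 * sec3 2 hz ^ 3) := by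
    have t := Tr.mul (r := [1, 36, 756]) (Tr.mul (r := [1, 24, 360]) s2 s2 (by decide)) s2 (by decide)
    have t' := ((t.shift 2).cast (c := -1) (by norm_num)).congr
      (g := HahnSeries.single 2 1 * sec3 2 hz ^ 3) (by ring)
    exact P3C_re (t'.down 2) (by norm_num) (by norm_num) (by decide) rfl
  have t12 := Tr.add (r := [0, 0, 1, 36]) t1 t2 (by decide)
  have t729 : Tr (-3) 4 [0, 0, 729, 26244] (729 * (HahnSeries.single 1 1 * sec3 1 hz ^ 3
      + HahnSeries.single 2 1 * sec3 2 hz ^ 3)) :=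
    (Tr.smul 729 t12 (by decide)).congr (by push_cast; rfl)
  have t3 : Tr (-3) 4 [0, 0, 5832, 84564] (243 * HahnSeries.single 1 1 * (3 * hz - 9 * sec3 0 hz)
      * sec3 1 hz * sec3 2 hz) := by
    have a1 := Tr.mul (r := [24, 60]) (al.mono (M := 2) (by norm_num)) s1 (by decide)
    have a2 := Tr.mul (r := [24, 348]) a1 (s2.mono (M := 2) (by norm_num)) (by decide)
    have t' := ((a2.shift 1).cast (c := -1) (by norm_num))
    have t'' := Tr.smul (r := [5832, 84564]) 243 t' (by decide)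
    exact P3C_re (t''.down 2) (by norm_num) (by norm_num) (by decide) (by push_cast; ring)
  have br := Tr.sub (r := [27, -324, -12150, -99252]) (Tr.sub (r := [27, -324, -6318, -14688])
    al3' t729 (by decide)) t3 (by decide)
  have p1 := Tr.mul (r := [-27, 324, 12231, 98388]) hA br (by decide)
  have p2 := Tr.mul (r := [-27, 432, 10989, 48168]) p1 hd (by decide)
  -- the right-hand side
  have c (k : ℤ) : Tr (-1) 4 [0, k, 0, 0] (k : LaurentSeries ℤ) := by
    have t := (Tr.const (N := 3) k (r := [k, 0, 0]) (by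
      intro n hn
      interval_cases n <;> rfl)).down 1
    refine P3C_re t (by norm_num) (by norm_num) ?_ rfl
    intro n hn
    interval_cases n <;> rfl
  have x36 : Tr (-1) 4 [1, -32, 22, 56] (xz - 36) :=
    (Tr.sub hx (c 36) (by decide)).congr (by push_cast; rfl)
  have x9 : Tr (-1) 4 [1, 13, 22, 56] (xz + 9) :=
    (Tr.add hx (c 9) (by decide)).congr (by push_cast; rfl)
  have x1' : Tr (-1) 4 [1, 3, 22, 56] (xz - 1) :=
    (Tr.sub hx (c 1) (by decide)).congr (by push_cast; rfl)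
  have xx := Tr.mul (r := [1, -16, -407, -1784]) (Tr.mul (r := [1, -19, -372, -306]) x36 x9
    (by decide)) x1' (by decide)
  have xx' : Tr (-3) 4 [27, -432, -10989, -48168] (27 * ((xz - 36) * (xz + 9) * (xz - 1))) :=
    ((Tr.smul 27 xx (by decide)).cast (by norm_num)).congr (by push_cast; rfl)
  have fin := Tr.add (r := [0, 0, 0, 0]) (p2.cast (c := -3) (by norm_num)) xx' (by decide)
  intro n hn
  rcases lt_or_ge n (-3) with h | h
  · exact fin.low n h
  · obtain ⟨k, rfl⟩ : ∃ k : ℕ, n = -3 + k := ⟨(n + 3).toNat, by omega⟩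
    rw [fin.cf k (by omega)]
    have hk : k < 4 := by omega
    interval_cases k <;> rfl

end Pool.Agent.H32.S36
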