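import Pool.Agent.H32.S36.Targets

set_option autoImplicit false

namespace Pool.Agent.H32.S36

/-- coefficient `n` of the product of two truncated series -/
def cv (l m : List ℤ) (n : ℕ) : ℤ :=
  ((List.range (n + 1)).map (fun j => l.getD j 0 * m.getD (n - j) 0)).sum

/-- `f = ∑_{n<N} l_n q^(a+n) + O(q^(a+N))` -/
structure Tr (a : ℤ) (N : ℕ) (l : List ℤ) (f : LaurentSeries ℤ) : Prop where
  low : ∀ n : ℤ, n < a → f.coeff n = 0
  cf : ∀ n : ℕ, n < N → f.coeff (a + n) = l.getD n 0

theorem cv_eq (l m : List ℤ) (n : ℕ) :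
    cv l m n = ∑ j ∈ Finset.range (n + 1), l.getD j 0 * m.getD (n - j) 0 := by
  unfold cv
  rw [Finset.sum_eq_multiset_sum, Finset.range_val, ← Multiset.coe_range, Multiset.map_coe,
    Multiset.sum_coe]

/-- product formula for series with bounded supports -/
theorem mul_low (f g : LaurentSeries ℤ) (a b : ℤ) (hf : ∀ n : ℤ, n < a → f.coeff n = 0)
    (hg : ∀ n : ℤ, n < b → g.coeff n = 0) (n : ℤ) (hn : n < a + b) : (f * g).coeff n = 0 := by
  rw [HahnSeries.coeff_mul]
  refine Finset.sum_eq_zero (fun ij hij => ?_)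
  simp only [HahnSeries.mem_support, Finset.mem_antidiagonal] at hij
  rcases lt_or_ge ij.1 a with h | h
  · rw [hf _ h, zero_mul]
  · rw [hg ij.2 (by omega), mul_zero]

theorem mul_cf (f g : LaurentSeries ℤ) (a b : ℤ) (hf : ∀ n : ℤ, n < a → f.coeff n = 0)
    (hg : ∀ n : ℤ, n < b → g.coeff n = 0) (n : ℕ) :
    (f * g).coeff (a + b + n) =
      ∑ j ∈ Finset.range (n + 1), f.coeff (a + j) * g.coeff (b + (n - j : ℕ)) := by
  rw [HahnSeries.coeff_mul]
  refine Finset.sum_bij_ne_zero (fun ij _ _ => (ij.1 - a).toNat) ?_ ?_ ?_ ?_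
  · intro ij hij h0
    simp only [HahnSeries.mem_support, Finset.mem_antidiagonal] at hij
    have h1 : a ≤ ij.1 := by
      by_contra h
      exact hij.1 (hf _ (by omega))
    have h2 : b ≤ ij.2 := by
      by_contra h
      exact hij.2.1 (hg _ (by omega))
    rw [Finset.mem_range]
    omega
  · intro ij hij _ kl hkl _ h
    simp only [HahnSeries.mem_support, Finset.mem_antidiagonal] at hij hkl
    have h1 : a ≤ ij.1 := by
      by_contra h
      exact hij.1 (hf _ (by omega))
    have h2 : a ≤ kl.1 := by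
      by_contra h
      exact hkl.1 (hf _ (by omega))
    ext <;> omega
  · intro j hj h0
    have h1 : f.coeff (a + j) ≠ 0 := left_ne_zero_of_mul h0
    have h2 : g.coeff (b + (n - j : ℕ)) ≠ 0 := right_ne_zero_of_mul h0
    rw [Finset.mem_range] at hj
    refine ⟨(a + j, b + (n - j : ℕ)), ?_, h0, ?_⟩
    · simp only [HahnSeries.mem_support, Finset.mem_antidiagonal]
      refine ⟨h1, h2, ?_⟩
      have : ((n - j : ℕ) : ℤ) = n - j := by omega
      rw [this]; ring
    · simp
  · intro ij hij h0
    simp only [HahnSeries.mem_support, Finset.mem_antidiagonal] at hij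
    have h1 : a ≤ ij.1 := by
      by_contra h
      exact hij.1 (hf _ (by omega))
    have h2 : b ≤ ij.2 := by
      by_contra h
      exact hij.2.1 (hg _ (by omega))
    have e1 : a + ((ij.1 - a).toNat : ℤ) = ij.1 := by omega
    have e2 : b + ((n - (ij.1 - a).toNat : ℕ) : ℤ) = ij.2 := by omega
    rw [e1, e2]

namespace Tr

variable {a b : ℤ} {N : ℕ} {l m r : List ℤ} {f g h : LaurentSeries ℤ}

theorem mul (hf : Tr a N l f) (hg : Tr b N m g) (hr : ∀ n, n < N → cv l m n = r.getD n 0) :
    Tr (a + b) N r (f * g) := by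
  refine ⟨mul_low f g a b hf.low hg.low, fun n hn => ?_⟩
  rw [mul_cf f g a b hf.low hg.low, ← hr n hn, cv_eq]
  refine Finset.sum_congr rfl (fun j hj => ?_)
  rw [Finset.mem_range] at hj
  rw [hf.cf j (by omega), hg.cf (n - j) (by omega)]

theorem add (hf : Tr a N l f) (hg : Tr a N m g)
    (hr : ∀ n, n < N → l.getD n 0 + m.getD n 0 = r.getD n 0) : Tr a N r (f + g) := by
  refine ⟨fun n hn => ?_, fun n hn => ?_⟩
  · rw [HahnSeries.coeff_add, hf.low n hn, hg.low n hn, add_zero]
  · rw [HahnSeries.coeff_add, hf.cf n hn, hg.cf n hn, hr n hn]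

theorem sub (hf : Tr a N l f) (hg : Tr a N m g)
    (hr : ∀ n, n < N → l.getD n 0 - m.getD n 0 = r.getD n 0) : Tr a N r (f - g) := by
  refine ⟨fun n hn => ?_, fun n hn => ?_⟩
  · rw [HahnSeries.coeff_sub, hf.low n hn, hg.low n hn, sub_zero]
  · rw [HahnSeries.coeff_sub, hf.cf n hn, hg.cf n hn, hr n hn]

/-- `g` is given (with leading coefficient one), `f g = h` is given; then `f` is known -/
theorem div (e : f * g = h) (hg : Tr b N m g) (hm : m.getD 0 0 = 1) (hN : 0 < N)
    (hh : Tr (a + b) N r h) (hr : ∀ n, n < N → cv l m n = r.getD n 0) : Tr a N l f := by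
  have hb : g.coeff b = 1 := by
    have := hg.cf 0 hN
    rw [hm, Nat.cast_zero, add_zero] at this
    exact this
  have hlow : ∀ n : ℤ, n < a → f.coeff n = 0 := by
    intro n hn
    by_contra h0
    have hf0 : f ≠ 0 := by
      rintro rfl
      exact h0 rfl
    have ho : f.order ≤ n := HahnSeries.order_le_of_coeff_ne_zero h0
    have hlo : ∀ k : ℤ, k < f.order → f.coeff k = 0 := fun k hk =>
      HahnSeries.coeff_eq_zero_of_lt_order hk
    have h1 := mul_cf f g f.order b hlo hg.low 0
    simp only [zero_add, Finset.sum_range_one, Nat.cast_zero, add_zero, Nat.sub_self] at h1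
    rw [e, hb, mul_one, hh.low _ (by omega)] at h1
    exact hf0 (HahnSeries.coeff_order_eq_zero.mp h1.symm)
  refine ⟨hlow, ?_⟩
  intro n
  induction n using Nat.strong_induction_on with
  | _ n ih =>
    intro hn
    have h1 := mul_cf f g a b hlow hg.low n
    rw [e, hh.cf n hn, ← hr n hn, cv_eq, Finset.sum_range_succ, Finset.sum_range_succ] at h1
    have h2 : ∑ j ∈ Finset.range n, f.coeff (a + j) * g.coeff (b + (n - j : ℕ)) =
        ∑ j ∈ Finset.range n, l.getD j 0 * m.getD (n - j) 0 := by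
      refine Finset.sum_congr rfl (fun j hj => ?_)
      rw [Finset.mem_range] at hj
      rw [ih j hj (by omega), hg.cf (n - j) (by omega)]
    rw [h2] at h1
    have h3 := add_left_cancel h1
    rw [Nat.sub_self, hm, mul_one, Nat.cast_zero, add_zero, hb, mul_one] at h3
    exact h3.symm

theorem congr (hf : Tr a N l f) (e : f = g) : Tr a N l g := e ▸ hf

theorem cast {c : ℤ} (hf : Tr a N l f) (e : a = c) : Tr c N l f := e ▸ hf

/-- multiplication by a monomial -/
theorem shift (c : ℤ) (hf : Tr a N l f) : Tr (c + a) N l (HahnSeries.single c (1 : ℤ) * f) := by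
  have hs : ∀ n : ℤ, n < c → (HahnSeries.single c (1 : ℤ)).coeff n = 0 := fun n hn =>
    HahnSeries.coeff_single_of_ne (by omega)
  refine ⟨mul_low _ f c a hs hf.low, fun n hn => ?_⟩
  rw [mul_cf _ f c a hs hf.low n, Finset.sum_range_succ', Finset.sum_eq_zero]
  · simp only [Nat.cast_zero, add_zero, HahnSeries.coeff_single_same, Nat.sub_zero, one_mul, zero_add]
    exact hf.cf n hn
  · intro j _
    rw [HahnSeries.coeff_single_of_ne (by push_cast; omega), zero_mul]

/-- multiplication by an integer constant -/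
theorem smul (k : ℤ) (hf : Tr a N l f) (hr : ∀ n, n < N → k * l.getD n 0 = r.getD n 0) :
    Tr a N r ((k : LaurentSeries ℤ) * f) := by
  refine ⟨fun n hn => ?_, fun n hn => ?_⟩
  · rw [intCast_mul_coeff, hf.low n hn, mul_zero]
  · rw [intCast_mul_coeff, hf.cf n hn, ← hr n hn]
    simp

theorem const (k : ℤ) (hr : ∀ n, n < N → (if n = 0 then k else 0) = r.getD n 0) :
    Tr 0 N r (k : LaurentSeries ℤ) := by
  have e : (k : LaurentSeries ℤ) = HahnSeries.C k := by simp
  refine ⟨fun n hn => ?_, fun n hn => ?_⟩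
  · rw [e, HahnSeries.C_apply, HahnSeries.coeff_single_of_ne (by omega)]
  · rw [← hr n hn, e, HahnSeries.C_apply, HahnSeries.coeff_single]
    by_cases h : n = 0
    · simp [h]
    · simp [h]

/-- more leading zeros -/
theorem down (k : ℕ) (hf : Tr a N l f) : Tr (a - k) (k + N) (List.replicate k 0 ++ l) f := by
  refine ⟨fun n hn => hf.low n (by omega), fun n hn => ?_⟩
  rcases lt_or_ge n k with h | h
  · rw [hf.low _ (by omega), List.getD_append _ _ _ _ (by simpa using h)]
    rw [List.getD_eq_getElem _ _ (by simpa using h)]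
    simp
  · rw [List.getD_append_right _ _ _ _ (by simpa using h)]
    have e : a - k + n = a + ((n - k : ℕ) : ℤ) := by omega
    rw [e, hf.cf (n - k) (by omega)]
    simp

theorem mono {M : ℕ} (hf : Tr a N l f) (h : M ≤ N) : Tr a M l f :=
  ⟨hf.low, fun n hn => hf.cf n (by omega)⟩

theorem get (hf : Tr a N l f) (c : ℤ) (n : ℕ) (hn : n < N) (hc : c = a + n) :
    f.coeff c = l.getD n 0 := by
  rw [hc]; exact hf.cf n hn

end Tr

end Pool.Agent.H32.S36
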